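import Pool.Agent.R685.NEc

/-!
Every minimal non-Engel variety of associative rings is a Cross variety.
-/

set_option autoImplicit false

namespace Pool.Agent.Results.MP_a5aec7_al.MinimalNonEngelCross

open Pool.Agent.H854R3.NE

/-- Every minimal non-Engel variety of associative (not necessarily unital) rings, given by a set
`E` of identities in the signature `(+, -, 0, *)`, is a Cross variety: it is finitely based,
locally finite, and contains only finitely many critical rings up to isomorphism. -/
theorem result : ∀ E : Set (RTerm × RTerm), MinimalNonEngel E → IsCross E :=
  fun _ hE => Pool.Agent.R685.minimal_cross hE

end Pool.Agent.Results.MP_a5aec7_al.MinimalNonEngelCross
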